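import Pool.Agent.helper24.IC.Spec

/-!
# Row LID: the left ideals
-/

set_option autoImplicit false

namespace Pool.Agent.IC

universe u

/-- The left ideal of the `s` with `s * b a j = 0` for all `j` with `P j`, at some level `a ≥ n`. -/
theorem LID_aux (hBAS : BAS_stmt.{u}) (S : Type u) [Ring S] (R : ℕ → Subring S) (E : ℕ → S)
    (γ : ℕ → ℕ → S) (hM : Mac R E γ) (P : ℕ → Prop) (n : ℕ)
    (hP : ∀ j, P j → ∀ k < j, P k) :
    ∃ L : Ideal S, ∀ a, n ≤ a → ∀ s ∈ R a, (s ∈ L ↔ ∀ j, P j → s * bb E γ a j = 0) := by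
  obtain ⟨b1, b2, b3, b4, b5⟩ := hBAS S R E γ hM
  have up : ∀ a c s, a ≤ c → (∀ j, P j → s * bb E γ a j = 0) → ∀ j, P j → s * bb E γ c j = 0 := by
    intro a c s hac h j hj
    refine b5 a c (j + 1) s hac ?_ j (Nat.lt_succ_self j)
    intro k hk
    rcases Nat.lt_succ_iff_lt_or_eq.1 hk with h1 | h1
    · exact h k (hP j hj k h1)
    · subst h1; exact h k hj
  refine ⟨{ carrier := {s | ∃ a, n ≤ a ∧ s ∈ R a ∧ ∀ j, P j → s * bb E γ a j = 0}
            add_mem' := ?_, zero_mem' := ?_, smul_mem' := ?_ }, ?_⟩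
  · rintro s t ⟨a, ha, hs, hs'⟩ ⟨c, hc, ht, ht'⟩
    refine ⟨max a c, le_max_of_le_left ha, (R (max a c)).add_mem (hM.mono (le_max_left a c) hs)
      (hM.mono (le_max_right a c) ht), ?_⟩
    intro j hj
    rw [add_mul, up a (max a c) s (le_max_left a c) hs' j hj,
      up c (max a c) t (le_max_right a c) ht' j hj, add_zero]
  · exact ⟨n, le_refl n, (R n).zero_mem, fun j _ => zero_mul _⟩
  · rintro r s ⟨a, ha, hs, hs'⟩
    obtain ⟨c, hc⟩ := hM.all r
    refine ⟨max a c, le_max_of_le_left ha, (R (max a c)).mul_mem (hM.mono (le_max_right a c) hc)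
      (hM.mono (le_max_left a c) hs), ?_⟩
    intro j hj
    rw [smul_eq_mul, mul_assoc, up a (max a c) s (le_max_left a c) hs' j hj, mul_zero]
  · intro a ha s hs
    constructor
    · rintro ⟨c, hc, hsc, h⟩ j hj
      by_cases hja : j ≤ a
      · exact b4 a (max a c) j s hs hja (le_max_left a c)
          (up c (max a c) s (le_max_right a c) h j hj)
      · rw [b2 a j (by omega), mul_zero]
    · intro h
      exact ⟨a, ha, hs, h⟩

theorem LID (hBAS : BAS_stmt.{u}) : LID_stmt.{u} := by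
  intro S _ R E γ hM
  refine ⟨?_, ?_⟩
  · obtain ⟨L, hL⟩ := LID_aux hBAS S R E γ hM (fun _ => True) 0 (fun _ _ _ _ => trivial)
    refine ⟨L, fun a s hs => ?_⟩
    rw [hL a (Nat.zero_le a) s hs]
    exact ⟨fun h j => h j trivial, fun h j _ => h j⟩
  · intro i
    obtain ⟨L, hL⟩ := LID_aux hBAS S R E γ hM (fun j => j < i) (i - 1)
      (fun j hj k hk => hk.trans hj)
    refine ⟨L, fun a ha s hs => ?_⟩
    exact hL a (by omega) s hs

end Pool.Agent.IC
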